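import Mathlib

set_option autoImplicit false

namespace Pool.Agent.LibDC76

open Module

section Forms

variable {K V : Type} [Field K] [AddCommGroup V] [Module K V]

/-- The product `x ↦ ∏ i, B (x (i,0)) (x (i,1))` of `m` copies of the bilinear form `B`. -/
noncomputable def prodForm (B : V →ₗ[K] V →ₗ[K] K) (m : ℕ) :
    MultilinearMap K (fun _ : Fin m × Fin 2 => V) K where
  toFun x := ∏ i : Fin m, B (x (i, 0)) (x (i, 1))
  map_update_add' := by
    intro inst x i a b
    have e : inst = instDecidableEqProd := Subsingleton.elim _ _
    subst e
    obtain ⟨i, j⟩ := i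
    rw [← Finset.mul_prod_erase _ _ (Finset.mem_univ i), ← Finset.mul_prod_erase _ _ (Finset.mem_univ i),
      ← Finset.mul_prod_erase _ _ (Finset.mem_univ i)]
    have h : ∀ c : V, ∏ k ∈ Finset.univ.erase i, B (Function.update x (i, j) c (k, 0))
        (Function.update x (i, j) c (k, 1)) = ∏ k ∈ Finset.univ.erase i, B (x (k, 0)) (x (k, 1)) := by
      intro c
      refine Finset.prod_congr rfl fun k hk => ?_
      have hk' : k ≠ i := (Finset.mem_erase.1 hk).1
      rw [Function.update_of_ne (by simp [hk']), Function.update_of_ne (by simp [hk'])]
    rw [h, h, h, ← add_mul]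
    congr 1
    fin_cases j <;> simp
  map_update_smul' := by
    intro inst x i c a
    have e : inst = instDecidableEqProd := Subsingleton.elim _ _
    subst e
    obtain ⟨i, j⟩ := i
    rw [← Finset.mul_prod_erase _ _ (Finset.mem_univ i), ← Finset.mul_prod_erase _ _ (Finset.mem_univ i)]
    have h : ∀ c : V, ∏ k ∈ Finset.univ.erase i, B (Function.update x (i, j) c (k, 0))
        (Function.update x (i, j) c (k, 1)) = ∏ k ∈ Finset.univ.erase i, B (x (k, 0)) (x (k, 1)) := by
      intro c
      refine Finset.prod_congr rfl fun k hk => ?_
      have hk' : k ≠ i := (Finset.mem_erase.1 hk).1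
      rw [Function.update_of_ne (by simp [hk']), Function.update_of_ne (by simp [hk'])]
    rw [h, h, smul_eq_mul, ← mul_assoc]
    congr 1
    fin_cases j <;> simp

@[simp] theorem prodForm_apply (B : V →ₗ[K] V →ₗ[K] K) (m : ℕ) (x : Fin m × Fin 2 → V) :
    prodForm B m x = ∏ i : Fin m, B (x (i, 0)) (x (i, 1)) := rfl

/-- A bilinear form as a form in two variables: `x ↦ B (x 0) (x 1)`. -/
noncomputable def form2 (B : V →ₗ[K] V →ₗ[K] K) : MultilinearMap K (fun _ : Fin 2 => V) K where
  toFun x := B (x 0) (x 1)
  map_update_add' := by
    intro inst x i a b
    have e : inst = instDecidableEqFin 2 := Subsingleton.elim _ _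
    subst e
    fin_cases i <;> simp
  map_update_smul' := by
    intro inst x i c a
    have e : inst = instDecidableEqFin 2 := Subsingleton.elim _ _
    subst e
    fin_cases i <;> simp

/-- The exterior product of a form in `a` variables and a form in `b` variables:
`x ↦ φ (x 0, …, x (a-1)) * ψ (x a, …, x (a+b-1))`. -/
noncomputable def mulForm {a b : ℕ} (φ : MultilinearMap K (fun _ : Fin a => V) K)
    (ψ : MultilinearMap K (fun _ : Fin b => V) K) :
    MultilinearMap K (fun _ : Fin (a + b) => V) K where
  toFun x := φ (fun i => x (Fin.castAdd b i)) * ψ (fun j => x (Fin.natAdd a j))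
  map_update_add' := by
    intro inst x i u v
    have e : inst = instDecidableEqFin _ := Subsingleton.elim _ _
    subst e
    refine Fin.addCases (fun i => ?_) (fun j => ?_) i
    · have h1 : ∀ w : V, (fun k => Function.update x (Fin.castAdd b i) w (Fin.castAdd b k)) =
          Function.update (fun k => x (Fin.castAdd b k)) i w := by
        intro w
        funext k
        by_cases hk : k = i
        · subst hk; simp
        · rw [Function.update_of_ne hk, Function.update_of_ne]
          simpa using hk
      have h2 : ∀ w : V, (fun k => Function.update x (Fin.castAdd b i) w (Fin.natAdd a k)) =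
          fun k => x (Fin.natAdd a k) := by
        intro w
        funext k
        rw [Function.update_of_ne]
        intro h
        have := congrArg Fin.val h
        simp at this
        omega
      simp only [h1, h2, MultilinearMap.map_update_add, add_mul]
    · have h1 : ∀ w : V, (fun k => Function.update x (Fin.natAdd a j) w (Fin.castAdd b k)) =
          fun k => x (Fin.castAdd b k) := by
        intro w
        funext k
        rw [Function.update_of_ne]
        intro h
        have := congrArg Fin.val h
        simp at this
        omega
      have h2 : ∀ w : V, (fun k => Function.update x (Fin.natAdd a j) w (Fin.natAdd a k)) =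
          Function.update (fun k => x (Fin.natAdd a k)) j w := by
        intro w
        funext k
        by_cases hk : k = j
        · subst hk; simp
        · rw [Function.update_of_ne hk, Function.update_of_ne]
          simpa using hk
      simp only [h1, h2, MultilinearMap.map_update_add, mul_add]
  map_update_smul' := by
    intro inst x i c u
    have e : inst = instDecidableEqFin _ := Subsingleton.elim _ _
    subst e
    refine Fin.addCases (fun i => ?_) (fun j => ?_) i
    · have h1 : ∀ w : V, (fun k => Function.update x (Fin.castAdd b i) w (Fin.castAdd b k)) =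
          Function.update (fun k => x (Fin.castAdd b k)) i w := by
        intro w
        funext k
        by_cases hk : k = i
        · subst hk; simp
        · rw [Function.update_of_ne hk, Function.update_of_ne]
          simpa using hk
      have h2 : ∀ w : V, (fun k => Function.update x (Fin.castAdd b i) w (Fin.natAdd a k)) =
          fun k => x (Fin.natAdd a k) := by
        intro w
        funext k
        rw [Function.update_of_ne]
        intro h
        have := congrArg Fin.val h
        simp at this
        omega
      simp only [h1, h2, MultilinearMap.map_update_smul, smul_mul_assoc]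
    · have h1 : ∀ w : V, (fun k => Function.update x (Fin.natAdd a j) w (Fin.castAdd b k)) =
          fun k => x (Fin.castAdd b k) := by
        intro w
        funext k
        rw [Function.update_of_ne]
        intro h
        have := congrArg Fin.val h
        simp at this
        omega
      have h2 : ∀ w : V, (fun k => Function.update x (Fin.natAdd a j) w (Fin.natAdd a k)) =
          Function.update (fun k => x (Fin.natAdd a k)) j w := by
        intro w
        funext k
        by_cases hk : k = j
        · subst hk; simp
        · rw [Function.update_of_ne hk, Function.update_of_ne]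
          simpa using hk
      simp only [h1, h2, MultilinearMap.map_update_smul, mul_smul_comm]

end Forms

/-- The data of a smooth projective variety `X` over a number field `k` used here (see the claim
file for the dictionary).  `V = H^n(X_k̄, ℚ̄_ℓ)`, `G = Gal(k̄/k)` acting by `ρ`, `χ` the multiplier
(`q^n` on a geometric Frobenius), `ω x y = ∫ x ∪ y ∪ L^(d-n)`, `S` the places of `k̄` of good
reduction not above `ℓ`, `frob s` the geometric Frobenius, `corr₀` (`corr s`) the algebra of
endomorphisms of `V` given by algebraic correspondences over `k̄` (on the reduction at `s`); each of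
the former is defined over a finite extension of `k`;
`alg s a` the forms `x ↦ ∫ z ∪ (x₁ ⊗ … ⊗ x_a)` in `a` variables given by the algebraic classes `z`
on the `a`-th power of the reduction at `s`. -/
structure Reductions (K V G S : Type) [Field K] [TopologicalSpace K] [AddCommGroup V] [Module K V]
    [Group G] [TopologicalSpace G] where
  /-- the Galois action -/
  ρ : G →* End K V
  cont : ∀ (f : Dual K V) (x : V), Continuous fun g => f (ρ g x)
  /-- the multiplier -/
  χ : G →* K
  /-- the form given by Poincaré duality and a polarisation -/
  ω : V →ₗ[K] V →ₗ[K] K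
  /-- its sign, `(-1)^n` -/
  ε : K
  sign : ε = 1 ∨ ε = -1
  symm : ∀ x y, ω y x = ε * ω x y
  nondeg : ∀ x, (∀ y, ω x y = 0) → x = 0
  mult : ∀ g x y, ω (ρ g x) (ρ g y) = χ g * ω x y
  /-- the Frobenius elements -/
  frob : S → G
  dense : Dense (Set.range frob)
  /-- the algebraic correspondences over `k̄` -/
  corr₀ : Subalgebra K (End K V)
  defined : ∀ t ∈ corr₀, ∃ N : Subgroup G, N.Normal ∧ IsOpen (N : Set G) ∧ ∀ h ∈ N, ρ h * t = t * ρ h
  /-- the algebraic correspondences on the reduction at `s` -/
  corr : S → Subalgebra K (End K V)
  spec : ∀ s, corr₀ ≤ corr s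
  graph : ∀ s, ρ (frob s) ∈ corr s
  /-- the forms given by algebraic classes on the powers of the reduction at `s` -/
  alg : S → ∀ a, Submodule K (MultilinearMap K (fun _ : Fin a => V) K)
  two : ∀ s, ∀ t ∈ corr s, ∀ t' ∈ corr s, form2 (ω.compl₁₂ t t') ∈ alg s 2
  mul : ∀ s a b, ∀ φ ∈ alg s a, ∀ ψ ∈ alg s b, mulForm φ ψ ∈ alg s (a + b)
  perm : ∀ s a, ∀ φ ∈ alg s a, ∀ σ : Equiv.Perm (Fin a), φ.domDomCongr σ ∈ alg s a

namespace Reductions

variable {K V G S : Type} [Field K] [TopologicalSpace K] [AddCommGroup V] [Module K V]
    [Group G] [TopologicalSpace G]

/-- The two facts on the reductions of an abelian variety that are used (`n = 1`): Frobenius is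
semisimple (Weil), and the endomorphisms of `H^1` commuting with a power of Frobenius are given by
algebraic correspondences (Tate 1966). -/
structure IsAbelian (R : Reductions K V G S) : Prop where
  weil : ∀ s, (R.ρ (R.frob s)).IsSemisimple
  tate : ∀ s, ∀ t : End K V, (∃ N : ℕ, 0 < N ∧ t * R.ρ (R.frob s) ^ N = R.ρ (R.frob s) ^ N * t) →
    t ∈ R.corr s

/-- The form `φ` is given by an algebraic class on the reduction at `s`, for all `s` (at least one
exists) whose Frobenius is sufficiently close to `g`. -/
def Near (R : Reductions K V G S) (g : G) {a : ℕ} (φ : MultilinearMap K (fun _ : Fin a => V) K) :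
    Prop :=
  ∃ O : Set G, IsOpen O ∧ g ∈ O ∧ (∃ s, R.frob s ∈ O) ∧ ∀ s, R.frob s ∈ O → φ ∈ R.alg s a

end Reductions

end Pool.Agent.LibDC76
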