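import Pool.Agent.LibDC76.Main

set_option autoImplicit false

namespace Pool.Agent.LibDC76

open Module

variable {K V G S : Type} [Field K] [CharZero K] [TopologicalSpace K] [IsTopologicalRing K] [T1Space K]
    [AddCommGroup V] [Module K V] [FiniteDimensional K V] [Group G] [TopologicalSpace G]

omit [CharZero K] [IsTopologicalRing K] [T1Space K] [FiniteDimensional K V] in
theorem chi_ne_zero (R : Reductions K V G S) (g : G) : R.χ g ≠ 0 := by
  intro h
  have h1 : R.χ g * R.χ g⁻¹ = 1 := by rw [← map_mul]; simp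
  rw [h, zero_mul] at h1
  exact zero_ne_one h1

omit [CharZero K] [IsTopologicalRing K] [T1Space K] [FiniteDimensional K V] in
theorem rho_inv_apply (R : Reductions K V G S) (g : G) (x : V) : R.ρ g (R.ρ g⁻¹ x) = x := by
  have h1 : R.ρ g * R.ρ g⁻¹ = 1 := by rw [← map_mul]; simp
  exact LinearMap.congr_fun h1 x

omit [CharZero K] [IsTopologicalRing K] [T1Space K] [FiniteDimensional K V] in
theorem rho_inv_apply' (R : Reductions K V G S) (g : G) (x : V) : R.ρ g⁻¹ (R.ρ g x) = x := by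
  have h1 : R.ρ g⁻¹ * R.ρ g = 1 := by rw [← map_mul]; simp
  exact LinearMap.congr_fun h1 x

omit [CharZero K] [IsTopologicalRing K] [T1Space K] [FiniteDimensional K V] in
theorem eps_sq (R : Reductions K V G S) : R.ε * R.ε = 1 := by
  rcases R.sign with h | h <;> rw [h] <;> ring

omit [CharZero K] [IsTopologicalRing K] [T1Space K] [FiniteDimensional K V] in
/-- translation of the nondegeneracy condition into eigenvalues -/
theorem nondeg_of_eigen (R : Reductions K V G S) (U : Submodule K V) (g : G)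
    (h2 : ∀ u ∈ U, R.ρ g (R.ρ g u) ∈ U)
    (hd : ∀ u ∈ U, (∀ y ∈ U, R.ω u (R.ρ g y) = 0) → u = 0)
    (he : ∀ u ∈ U, R.ρ g (R.ρ g u) = (R.ε * R.χ g) • u → u = 0) :
    ∀ u ∈ U, (∀ y ∈ U, R.ω u (R.ρ g y) = R.ω y (R.ρ g u)) → u = 0 := by
  intro u hu h
  apply he u hu
  have hx := chi_ne_zero R g
  have h1 : (R.ε * R.χ g) • u - R.ρ g (R.ρ g u) = 0 := by
    apply hd _ (sub_mem (U.smul_mem _ hu) (h2 u hu))
    intro y hy
    have h3 := h y hy
    have h4 : R.ω y (R.ρ g u) = R.ε * R.ω (R.ρ g u) y := R.symm _ _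
    have h5 := R.mult g (R.ρ g u) y
    rw [map_sub, LinearMap.sub_apply, map_smul, LinearMap.smul_apply, smul_eq_mul, h5, h3, h4]
    rw [show R.ε * R.χ g * (R.ε * R.ω (R.ρ g u) y) = (R.ε * R.ε) * (R.χ g * R.ω (R.ρ g u) y) by ring,
      eps_sq, one_mul, sub_self]
  exact (sub_eq_zero.1 h1).symm

/-- (1): nearby Frobenius elements -/
theorem near_of_nondeg (R : Reductions K V G S) (π : End K V) (hπ : π * π = π) (m : ℕ)
    (hm : 0 < m) (hU : finrank K (LinearMap.range π) = 2 * m) (c : V [⋀^Fin (2 * m)]→ₗ[K] K)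
    (hc : ∀ v : Fin (2 * m) → V, c (fun i => π (v i)) = c v) (g : G)
    (hπ0 : ∃ O : Set G, IsOpen O ∧ g ∈ O ∧ ∀ s, R.frob s ∈ O → π ∈ R.corr s)
    (hg : ∀ u ∈ LinearMap.range π,
      (∀ y ∈ LinearMap.range π, R.ω u (R.ρ g y) = R.ω y (R.ρ g u)) → u = 0) :
    R.Near g c.toMultilinearMap := by
  obtain ⟨O, hO, hgO, _, h⟩ := exists_open R (LinearMap.range π) g hg
  obtain ⟨O', hO', hgO', h'⟩ := hπ0
  refine ⟨O ∩ O', hO.inter hO', ⟨hgO, hgO'⟩, ?_, fun s hs' =>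
    core R π hπ m hm hU c hc s (h' s hs'.2) _ (R.graph s) (h _ hs'.1)⟩
  obtain ⟨x, hx, s, rfl⟩ := R.dense.inter_open_nonempty _ (hO.inter hO') ⟨g, hgO, hgO'⟩
  exact ⟨s, hx⟩

omit [CharZero K] [IsTopologicalRing K] [T1Space K] [FiniteDimensional K V] in
theorem comm_sq (R : Reductions K V G S) (π : End K V) (g : G) (hg : R.ρ g ^ 2 * π = π * R.ρ g ^ 2)
    (N : Subgroup G) [hN : N.Normal] (hNπ : ∀ h ∈ N, R.ρ h * π = π * R.ρ h) (f : G) (hf : g⁻¹ * f ∈ N) :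
    π * R.ρ f ^ 2 = R.ρ f ^ 2 * π := by
  -- `f ^ 2 = g ^ 2 * k` with `k ∈ N`
  have hk : (g ^ 2)⁻¹ * f ^ 2 ∈ N := by
    have h1 : (g ^ 2)⁻¹ * f ^ 2 = (g⁻¹ * (g⁻¹ * f) * g⁻¹⁻¹) * (g⁻¹ * f) := by
      simp only [pow_two]; group
    rw [h1]
    exact N.mul_mem (hN.conj_mem _ hf _) hf
  have h2 : R.ρ f ^ 2 = R.ρ g ^ 2 * R.ρ ((g ^ 2)⁻¹ * f ^ 2) := by
    rw [← map_pow, ← map_pow, ← map_mul]
    congr 1
    group
  rw [h2, ← mul_assoc, ← hg, mul_assoc, mul_assoc, hNπ _ hk]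

/-- (3), abelian case -/
theorem abelian_case (R : Reductions K V G S) (hR : R.IsAbelian) (π : End K V)
    (hπ : π * π = π) (m : ℕ)
    (hm : 0 < m) (hU : finrank K (LinearMap.range π) = 2 * m) (c : V [⋀^Fin (2 * m)]→ₗ[K] K)
    (hc : ∀ v : Fin (2 * m) → V, c (fun i => π (v i)) = c v) (N : Subgroup G) [N.Normal]
    (hNπ : ∀ h ∈ N, R.ρ h * π = π * R.ρ h) (g : G) (hg : R.ρ g ^ 2 * π = π * R.ρ g ^ 2)
    (hd : ∀ u ∈ LinearMap.range π, (∀ y ∈ LinearMap.range π, R.ω u (R.ρ g y) = 0) → u = 0)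
    (s : S) (hs : g⁻¹ * R.frob s ∈ N) (hπs : π ∈ R.corr s) : c.toMultilinearMap ∈ R.alg s (2 * m) := by
  have hpi : ∀ u ∈ LinearMap.range π, π u = u := by
    rintro _ ⟨v, rfl⟩
    exact LinearMap.congr_fun hπ v
  have hc2 := comm_sq R π g hg N hNπ _ hs
  obtain ⟨t, ht, ht0, ht1⟩ := exists_tate R.ω R.ε (R.χ (R.frob s)) R.sign (chi_ne_zero R _) R.symm R.nondeg
    (R.ρ (R.frob s)) (R.mult _) (hR.weil s) π hπ hc2
    (by
      intro u hu h
      refine hd u hu fun y hy => ?_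
      -- `g y = F (k⁻¹ y)` with `k = g⁻¹ F ∈ N`
      set k := g⁻¹ * R.frob s with hk
      have h1 : R.ρ g y = R.ρ (R.frob s) (R.ρ k⁻¹ y) := by
        have : R.frob s * k⁻¹ = g := by rw [hk]; group
        rw [← this, map_mul]; rfl
      rw [h1]
      apply h
      have h2 := hNπ k⁻¹ (N.inv_mem hs)
      have h3 : R.ρ k⁻¹ (π y) = π (R.ρ k⁻¹ y) := LinearMap.congr_fun h2 y
      rw [hpi y hy] at h3
      exact ⟨_, h3.symm⟩)
    (by rw [hU]; exact even_two_mul m)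
    (fun W m hW => exists_alternating m hW)
    (fun W B h1 h2 => even_of_alternating B h1 h2)
  have htc : t ∈ R.corr s := hR.tate s t ⟨2, by norm_num, ht⟩
  refine core R π hπ m hm hU c hc s hπs t htc ?_
  intro u hu h
  refine ht1 u hu fun y hy => ?_
  have h1 := ht0 (u + y)
  simp only [map_add, LinearMap.add_apply] at h1
  rw [ht0 u, ht0 y, h y hy] at h1
  have h2 : (2 : K) * R.ω y (t u) = 0 := by linear_combination h1
  rw [h y hy]
  exact (mul_eq_zero.1 h2).resolve_left two_ne_zero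

end Pool.Agent.LibDC76
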