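import Pool.Agent.LibDC76.Defs

/-!
ROW [DC76 P2] (ONLY MATHLIB, MEDIUM).  The sum over the hyperoctahedral group is not zero.

Plan.  Put `J p q := B (b p) (b q)` for the vectors `b` of P1: `J (i,0) (i,1) = 1`, `J (i,1) (i,0) = -1`
(alternating), `J (i,j) (i,j) = 0` and `J p q = 0` if `p.1 ≠ q.1`.  By definition
`(alternatization (prodForm B m)) b = ∑ σ : Perm (Fin m × Fin 2), sign σ • ∏ i, J (σ (i,0)) (σ (i,1))`
(`MultilinearMap.alternatization_apply`; `domDomCongr_apply`).
CLAIM: every summand is `0` or `1`.  If all factors are nonzero then `(σ (i,0)).1 = (σ (i,1)).1 =: π i`; with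
`τ i : Perm (Fin 2)` one has `σ (i, j) = (π i, τ i j)`, `π` is injective (σ is), so a permutation, and
`σ = prodCongrRight τ * prodCongrLeft (fun _ => π)`-like product, hence `sign σ = (∏ i, sign (τ i)) * (sign π)^2 =
∏ i, sign (τ i)` (`Equiv.Perm.sign_prodCongrRight`, `Equiv.Perm.sign_prodCongrLeft`), while the product of the `J`
is also `∏ i, sign (τ i)`.  The summand of `σ = 1` is `1`.  So the sum is the cast of a positive natural number
(number of nonzero summands), not `0` in characteristic `0`.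
-/

set_option autoImplicit false

namespace Pool.Agent.LibDC76

open Module

private theorem p2_anti {K U : Type} [Field K] [AddCommGroup U] [Module K U]
    (B : U →ₗ[K] U →ₗ[K] K) (halt : ∀ x, B x x = 0) (x y : U) : B x y = -B y x := by
  have h := halt (x + y)
  simp only [map_add, LinearMap.add_apply, halt, zero_add, add_zero] at h
  linear_combination h

private theorem p2_term {K U : Type} [Field K] [AddCommGroup U] [Module K U]
    (B : U →ₗ[K] U →ₗ[K] K) (halt : ∀ x, B x x = 0) (m : ℕ) (b : Fin m × Fin 2 → U)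
    (h1 : ∀ i, B (b (i, 0)) (b (i, 1)) = 1)
    (h0 : ∀ p q : Fin m × Fin 2, p.1 ≠ q.1 → B (b p) (b q) = 0)
    (σ : Equiv.Perm (Fin m × Fin 2)) :
    ((Equiv.Perm.sign σ : ℤ) : K) * ∏ i : Fin m, B (b (σ (i, 0))) (b (σ (i, 1))) = 0 ∨
    ((Equiv.Perm.sign σ : ℤ) : K) * ∏ i : Fin m, B (b (σ (i, 0))) (b (σ (i, 1))) = 1 := by
  by_cases h : ∃ i, (σ (i, 0)).1 ≠ (σ (i, 1)).1
  · obtain ⟨i, hi⟩ := h
    left
    rw [Finset.prod_eq_zero (Finset.mem_univ i) (h0 _ _ hi), mul_zero]
  push Not at h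
  right
  have hne : ∀ i, (σ (i, 0)).2 ≠ (σ (i, 1)).2 := by
    intro i he
    have h2 := σ.injective (Prod.ext (h i) he)
    simp at h2
  have h01 : ∀ x : Fin 2, x ≠ 0 → x = 1 := by decide
  have h10 : ∀ x : Fin 2, x ≠ 1 → x = 0 := by decide
  have hex : ∀ i, ∃ τ : Equiv.Perm (Fin 2), (∀ j, σ (i, j) = ((σ (i, 0)).1, τ j)) ∧
      (τ = 1 ∨ τ = Equiv.swap 0 1) := by
    intro i
    by_cases hc : (σ (i, 0)).2 = 0
    · refine ⟨1, fun j => ?_, Or.inl rfl⟩
      have hc' : (σ (i, 1)).2 = 1 := h01 _ fun h' => hne i (hc.trans h'.symm)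
      fin_cases j
      · exact Prod.ext rfl hc
      · exact Prod.ext (h i).symm hc'
    · refine ⟨Equiv.swap 0 1, fun j => ?_, Or.inr rfl⟩
      have hc1 : (σ (i, 0)).2 = 1 := h01 _ hc
      have hc' : (σ (i, 1)).2 = 0 := h10 _ fun h' => hne i (hc1.trans h'.symm)
      fin_cases j
      · exact Prod.ext rfl hc1
      · exact Prod.ext (h i).symm hc'
  choose τ hτ hτ2 using hex
  have hπ : Function.Injective fun i => (σ (i, 0)).1 := by
    intro i i' hi
    have hi' : (σ (i, 0)).1 = (σ (i', 0)).1 := hi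
    have h2 : σ (i', 0) = σ (i, (τ i).symm (τ i' 0)) := by
      rw [hτ i, hτ i' 0, Equiv.apply_symm_apply, hi']
    have h3 := σ.injective h2
    exact (Prod.mk.inj h3).1.symm
  let π : Equiv.Perm (Fin m) := Equiv.ofBijective _ (Finite.injective_iff_bijective.1 hπ)
  have hdec : σ = Equiv.prodCongrLeft (fun _ : Fin 2 => π) * Equiv.prodCongrRight τ := by
    refine Equiv.ext fun ⟨i, j⟩ => ?_
    rw [Equiv.Perm.mul_apply]
    exact hτ i j
  have hsign : Equiv.Perm.sign σ = ∏ i, Equiv.Perm.sign (τ i) := by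
    rw [hdec, Equiv.Perm.sign_mul, Equiv.Perm.sign_prodCongrLeft, Equiv.Perm.sign_prodCongrRight,
      Finset.prod_const, Finset.card_univ, Fintype.card_fin, Int.units_sq, one_mul]
  have hB : ∀ i, B (b (σ (i, 0))) (b (σ (i, 1))) = ((Equiv.Perm.sign (τ i) : ℤ) : K) := by
    intro i
    have e0 := hτ i 0
    have e1 := hτ i 1
    generalize (σ (i, 0)).1 = p at e0 e1
    rw [e0, e1]
    rcases hτ2 i with ht | ht
    · rw [ht]
      simp only [Equiv.Perm.coe_one, id_eq, Equiv.Perm.sign_one, Units.val_one, Int.cast_one]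
      exact h1 p
    · rw [ht, Equiv.swap_apply_left, Equiv.swap_apply_right, p2_anti B halt, h1 p,
        Equiv.Perm.sign_swap (by decide)]
      simp
  have hu : ∀ u : ℤˣ, ((u : ℤ) : K) * ((u : ℤ) : K) = 1 := by
    intro u
    rcases Int.units_eq_one_or u with rfl | rfl <;> simp
  rw [Finset.prod_congr rfl fun i _ => hB i, hsign, Units.coe_prod, Int.cast_prod,
    ← Finset.prod_mul_distrib]
  exact Finset.prod_eq_one fun i _ => hu _

theorem alternatization_ne_zero {K U : Type} [Field K] [CharZero K] [AddCommGroup U] [Module K U]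
    (B : U →ₗ[K] U →ₗ[K] K) (halt : ∀ x, B x x = 0) (m : ℕ) (b : Fin m × Fin 2 → U)
    (h1 : ∀ i, B (b (i, 0)) (b (i, 1)) = 1)
    (h0 : ∀ p q : Fin m × Fin 2, p.1 ≠ q.1 → B (b p) (b q) = 0) :
    (MultilinearMap.alternatization (prodForm B m)) b ≠ 0 := by
  classical
  have hsum : (MultilinearMap.alternatization (prodForm B m)) b =
      ∑ σ : Equiv.Perm (Fin m × Fin 2),
        ((Equiv.Perm.sign σ : ℤ) : K) * ∏ i : Fin m, B (b (σ (i, 0))) (b (σ (i, 1))) := by
    rw [MultilinearMap.alternatization_apply]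
    refine Finset.sum_congr rfl fun σ _ => ?_
    rw [Units.smul_def, zsmul_eq_mul, MultilinearMap.domDomCongr_apply, prodForm_apply]
  rw [hsum]
  have hterm := p2_term B halt m b h1 h0
  have hcard : ∑ σ : Equiv.Perm (Fin m × Fin 2),
        ((Equiv.Perm.sign σ : ℤ) : K) * ∏ i : Fin m, B (b (σ (i, 0))) (b (σ (i, 1))) =
      (((Finset.univ : Finset (Equiv.Perm (Fin m × Fin 2))).filter fun σ =>
        ((Equiv.Perm.sign σ : ℤ) : K) * ∏ i : Fin m, B (b (σ (i, 0))) (b (σ (i, 1))) ≠ 0).card : K) := by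
    rw [Finset.card_filter, Nat.cast_sum]
    refine Finset.sum_congr rfl fun σ _ => ?_
    rcases hterm σ with h | h
    · rw [h]
      simp
    · rw [h]
      simp
  rw [hcard, Nat.cast_ne_zero, Finset.card_ne_zero]
  refine ⟨1, Finset.mem_filter.2 ⟨Finset.mem_univ _, ?_⟩⟩
  simp [h1]

end Pool.Agent.LibDC76
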