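import Pool.Agent.LibDC76.Defs

/-!
ROW [DC76 P5] (only Defs, MEDIUM).  Products of `m` copies of an algebraic bilinear form are algebraic.

`A : ∀ a, Submodule K (MultilinearMap K (fun _ : Fin a => V) K)` is closed under `mulForm` and permutations.
Plan: induction on `m`.  It is convenient to prove first, for finite types `ι`, `κ` and `e e' : ι ≃ Fin a`, that
`φ.domDomCongr e ∈ A a ↔ φ.domDomCongr e' ∈ A a` (they differ by a permutation of `Fin a`:
`MultilinearMap.domDomCongr_trans` or ext).  `m = 1`: `prodForm B 1` is `form2 B` up to reindexing.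
Step `m → m + 1`: `prodForm B (m+1)`, reindexed by `Fin 2 ⊕ Fin (m*2)`-like equivalence, is
`mulForm (form2 B) (prodForm B m)` reindexed: give one explicit equivalence `e : Fin (m+1) × Fin 2 ≃ Fin (2 + 2*m)`
with `e (0, j) = Fin.castAdd _ j`, `e (i.succ, j) = Fin.natAdd 2 (e' (i, j))` for which
`(prodForm B (m+1)).domDomCongr e = mulForm (form2 B) ((prodForm B m).domDomCongr e')` holds by `ext`
(`Fin.prod_univ_succ`).  Casts between `Fin (2 + 2*m)` and `Fin (2*(m+1))` are avoided by allowing all `n` with an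
equivalence: the statement below is for EVERY `n` and EVERY `e`.
-/

set_option autoImplicit false

namespace Pool.Agent.LibDC76

/-- split off the first factor -/
private def P5_split (m : ℕ) : Fin (m + 1) × Fin 2 ≃ Fin 2 ⊕ (Fin m × Fin 2) where
  toFun p := Fin.cases (motive := fun _ => Fin 2 ⊕ (Fin m × Fin 2)) (Sum.inl p.2)
    (fun i => Sum.inr (i, p.2)) p.1
  invFun := Sum.elim (fun j => (0, j)) (fun q => (q.1.succ, q.2))
  left_inv := by
    rintro ⟨i, j⟩
    refine Fin.cases ?_ (fun i => ?_) i <;> simp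
  right_inv := by
    rintro (j | ⟨i, j⟩) <;> simp

private theorem P5_reindex {K V : Type} [Field K] [AddCommGroup V] [Module K V]
    (A : ∀ a, Submodule K (MultilinearMap K (fun _ : Fin a => V) K))
    (perm : ∀ a, ∀ φ ∈ A a, ∀ σ : Equiv.Perm (Fin a), φ.domDomCongr σ ∈ A a)
    {ι : Type} (φ : MultilinearMap K (fun _ : ι => V) K) {a : ℕ} (e e' : ι ≃ Fin a)
    (h : φ.domDomCongr e ∈ A a) : φ.domDomCongr e' ∈ A a := by
  have h1 := perm a _ h (e.symm.trans e')
  have h2 : (φ.domDomCongr e).domDomCongr (e.symm.trans e') = φ.domDomCongr e' := by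
    ext x
    change (φ fun i => x (e' (e.symm (e i)))) = φ fun i => x (e' i)
    congr 1
    funext i
    rw [Equiv.symm_apply_apply]
  rwa [h2] at h1

theorem prodForm_mem {K V : Type} [Field K] [AddCommGroup V] [Module K V]
    (A : ∀ a, Submodule K (MultilinearMap K (fun _ : Fin a => V) K))
    (mul : ∀ a b, ∀ φ ∈ A a, ∀ ψ ∈ A b, mulForm φ ψ ∈ A (a + b))
    (perm : ∀ a, ∀ φ ∈ A a, ∀ σ : Equiv.Perm (Fin a), φ.domDomCongr σ ∈ A a)
    (B : V →ₗ[K] V →ₗ[K] K) (hB : form2 B ∈ A 2) (m : ℕ) (hm : 0 < m) (n : ℕ) (e : Fin m × Fin 2 ≃ Fin n) :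
    (prodForm B m).domDomCongr e ∈ A n := by
  induction m generalizing n with
  | zero => exact absurd hm (lt_irrefl _)
  | succ m ih =>
    rcases Nat.eq_zero_or_pos m with rfl | hm'
    · have hn : n = 2 := by
        have := Fintype.card_congr e
        simpa using this.symm
      subst hn
      refine P5_reindex A perm _ (Equiv.uniqueProd (Fin 2) (Fin 1)) e ?_
      have h1 : (prodForm B (0 + 1)).domDomCongr (Equiv.uniqueProd (Fin 2) (Fin 1)) = form2 B := by
        ext x
        simp [MultilinearMap.domDomCongr_apply, form2]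
      rw [h1]
      exact hB
    · have hn : n = 2 + m * 2 := by
        have := Fintype.card_congr e
        simp only [Fintype.card_prod, Fintype.card_fin] at this
        omega
      subst hn
      have h0 : (prodForm B m).domDomCongr finProdFinEquiv ∈ A (m * 2) := ih hm' _ finProdFinEquiv
      let e₁ : Fin (m + 1) × Fin 2 ≃ Fin (2 + m * 2) :=
        (P5_split m).trans ((Equiv.sumCongr (Equiv.refl _) finProdFinEquiv).trans finSumFinEquiv)
      refine P5_reindex A perm _ e₁ e ?_
      have h1 : (prodForm B (m + 1)).domDomCongr e₁ =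
          mulForm (form2 B) ((prodForm B m).domDomCongr finProdFinEquiv) := by
        ext x
        change ∏ i : Fin (m + 1), B (x (e₁ (i, 0))) (x (e₁ (i, 1))) =
          B (x (Fin.castAdd _ 0)) (x (Fin.castAdd _ 1)) *
            ∏ i : Fin m, B (x (Fin.natAdd 2 (finProdFinEquiv (i, 0))))
              (x (Fin.natAdd 2 (finProdFinEquiv (i, 1))))
        rw [Fin.prod_univ_succ]
        rfl
      rw [h1]
      exact mul _ _ _ hB _ h0

end Pool.Agent.LibDC76
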