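import Pool.Agent.LibDC76.Defs

/-!
ROW [DC76 P6] (only Defs, MEDIUM).  Nondegeneracy of `(x, y) ↦ ω x (ρ g y) - ω y (ρ g x)` on `U` is an open
condition on `g`.

Plan: take a basis `b : Basis (Fin r) K U` of `U` (`Module.finBasis`).  The function
`g ↦ det (Matrix.of fun i j => ω (b i) (ρ g (b j)) - ω (b j) (ρ g (b i)))` is continuous (`Continuous.matrix_det`,
`continuous_matrix`/`continuous_pi`, `R.cont (R.ω x) y`), and the determinant is nonzero iff the form is
nondegenerate on `U` (`Matrix.exists_mulVec_eq_zero_iff`/`Matrix.exists_vecMul_eq_zero_iff`: a vector of the kernel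
gives an element of `U` orthogonal to all of `U` and vice versa).  So `O := {g | det ≠ 0}` is open
(`isOpen_ne_fun` or preimage of `{0}ᶜ`, `K` is `T1`), contains `g`, and `R.dense` gives a point of `range frob` in it.
-/

set_option autoImplicit false

namespace Pool.Agent.LibDC76

open Module

private theorem p6_det_iff {K U : Type} [Field K] [AddCommGroup U] [Module K U] {r : ℕ}
    (b : Basis (Fin r) K U) (A : U →ₗ[K] U →ₗ[K] K) :
    (Matrix.of fun i j => A (b i) (b j)).det ≠ 0 ↔ ∀ u, (∀ y, A u y = 0) → u = 0 := by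
  have hvec : ∀ c : Fin r → K, ∀ j, Matrix.vecMul c (Matrix.of fun i j => A (b i) (b j)) j =
      A (∑ i, c i • b i) (b j) := by
    intro c j
    rw [map_sum, LinearMap.sum_apply]
    simp only [Matrix.vecMul, dotProduct, Matrix.of_apply, map_smul, LinearMap.smul_apply,
      smul_eq_mul]
  constructor
  · intro hdet u hu
    have h0 : Matrix.vecMul (fun i => b.repr u i) (Matrix.of fun i j => A (b i) (b j)) = 0 := by
      funext j
      rw [hvec, b.sum_repr u, hu]
      rfl
    have h1 := Matrix.eq_zero_of_vecMul_eq_zero hdet h0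
    rw [← b.sum_repr u]
    refine Finset.sum_eq_zero fun i _ => ?_
    have h2 : b.repr u i = 0 := congrFun h1 i
    rw [h2, zero_smul]
  · intro h hdet
    obtain ⟨v, hv, hv0⟩ := Matrix.exists_vecMul_eq_zero_iff.2 hdet
    apply hv
    have hA : A (∑ i, v i • b i) = 0 := by
      refine b.ext fun j => ?_
      rw [← hvec, hv0]
      rfl
    have hu := h (∑ i, v i • b i) (fun y => by rw [hA]; rfl)
    have h3 := b.repr_sum_self v
    rw [hu] at h3
    rw [← h3]
    simp

theorem exists_open {K V G S : Type} [Field K] [TopologicalSpace K] [IsTopologicalRing K] [T1Space K]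
    [AddCommGroup V] [Module K V] [FiniteDimensional K V] [Group G] [TopologicalSpace G]
    (R : Reductions K V G S) (U : Submodule K V) (g : G)
    (hg : ∀ u ∈ U, (∀ y ∈ U, R.ω u (R.ρ g y) = R.ω y (R.ρ g u)) → u = 0) :
    ∃ O : Set G, IsOpen O ∧ g ∈ O ∧ (∃ s, R.frob s ∈ O) ∧
      ∀ h ∈ O, ∀ u ∈ U, (∀ y ∈ U, R.ω u (R.ρ h y) = R.ω y (R.ρ h u)) → u = 0 := by
  classical
  let b := Module.finBasis K U
  let A : G → (U →ₗ[K] U →ₗ[K] K) := fun h =>
    R.ω.compl₁₂ U.subtype (R.ρ h ∘ₗ U.subtype) -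
      (R.ω.compl₁₂ U.subtype (R.ρ h ∘ₗ U.subtype)).flip
  have hA : ∀ h (u y : U), A h u y = R.ω u (R.ρ h y) - R.ω y (R.ρ h u) := by
    intro h u y
    rfl
  have hiff : ∀ h : G, (Matrix.of fun i j => A h (b i) (b j)).det ≠ 0 ↔
      ∀ u ∈ U, (∀ y ∈ U, R.ω u (R.ρ h y) = R.ω y (R.ρ h u)) → u = 0 := by
    intro h
    rw [p6_det_iff b (A h)]
    constructor
    · intro H u hu hy
      have := H ⟨u, hu⟩ (fun y => by rw [hA]; exact sub_eq_zero.2 (hy y y.2))
      exact congrArg Subtype.val this
    · intro H u hy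
      apply Subtype.ext
      exact H u u.2 (fun y hyU => by
        have := hy ⟨y, hyU⟩
        rw [hA] at this
        exact sub_eq_zero.1 this)
  have hcont : Continuous fun h : G => (Matrix.of fun i j => A h (b i) (b j)).det := by
    refine Continuous.matrix_det ?_
    refine continuous_matrix fun i j => ?_
    show Continuous fun h : G => A h (b i) (b j)
    simp only [hA]
    exact (R.cont (R.ω (b i)) (b j)).sub (R.cont (R.ω (b j)) (b i))
  have hopen : IsOpen {h : G | (Matrix.of fun i j => A h (b i) (b j)).det ≠ 0} :=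
    isOpen_ne.preimage hcont
  refine ⟨_, hopen, (hiff g).2 hg, ?_, fun h hh => (hiff h).1 hh⟩
  obtain ⟨x, hx, s, rfl⟩ := R.dense.inter_open_nonempty _ hopen ⟨g, (hiff g).2 hg⟩
  exact ⟨s, hx⟩

end Pool.Agent.LibDC76
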