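import Pool.Agent.LibDC76.Defs

/-!
ROW [DC76 P7] (ONLY MATHLIB, MEDIUM/STRONG).  Linear algebra for Weil classes on abelian varieties.

`F` plays Frobenius, `q` its multiplier, `U` the range of the projector `π` which commutes with `F^2`.
Plan.  Put `lam := ε * q` (`≠ 0`), `f := (F^2 - lam)` restricted to `U` (it maps `U` to `U` since `π` commutes with
`F^2`).  `ω u (F y) - ω y (F u) = ω (u - lam⁻¹ F² u) (F y) = - lam⁻¹ ω (f u) (F y)` for all `u, y` (use `symm`,
`mult`, `ε⁻¹ = ε`).  Semisimplicity of `F` (so of `F^2`, or directly: `F^2 - lam` has the same kernel as its square,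
see `Module.End.IsSemisimple` API, `IsSemisimple.aeval`/`genEigenspace_eq_eigenspace`) gives `ker f ∩ range f = 0` on
`U`, hence `U = R ⊕ W`, `R = ker f`, `W = range f`.  The alternating form `A` has radical `R` on `U` and is
nondegenerate on `W`, so `dim W` is even (an alternating nondegenerate form: use
`exists_symplectic`-like parity; you may use row P1's `exists_alternating` AS A HYPOTHESIS `hA` below, and the
parity statement `hpar`), so `dim R` is even: choose `B'` nondegenerate alternating on `R`.
`B x y := A (π x) (π y) + B' (p π x) (p π y)`, `p : U → R` the projection along `W` (commutes with `F^2`).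
Then `B` is alternating, nondegenerate on `U`, `B (F² x) (F² y) = q² B x y` for all `x y : V`
(`lam² = q²`).  By nondegeneracy of `ω` on the finite dimensional `V` there is `t` with `B x y = ω x (t y)`
(`LinearMap.BilinForm.toDual`/ injective + finrank), and `t F² = F² t` follows from
`ω (F² x) (t F² y) = q² ω x (t y) = ω (F² x) (F² t y)`, `F²` being bijective (`F x = 0 → ω x y = 0` for all `y`).
-/

set_option autoImplicit false

namespace Pool.Agent.LibDC76

open Module

private theorem p7_proj {K V : Type} [Field K] [AddCommGroup V] [Module K V]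
    [FiniteDimensional K V] (F : End K V) (hF : F.IsSemisimple) (lam : K) (π : End K V)
    (hc : ∀ x, π (F (F x)) = F (F (π x))) :
    ∃ P : End K V, (∀ x, F (F (P x)) = lam • P x) ∧ (∀ x, F (F x) = lam • x → P x = x) ∧
      (∀ x, P (F (F x)) = F (F (P x))) ∧ (∀ x, P (π x) = π (P x)) := by
  let f : End K V := F ∘ₗ F - lam • LinearMap.id
  have hf : ∀ x, f x = F (F x) - lam • x := fun x => rfl
  have hinv : LinearMap.ker f ∈ Module.End.invtSubmodule F := by
    rw [Module.End.mem_invtSubmodule]
    intro x hx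
    rw [Submodule.mem_comap, LinearMap.mem_ker, hf]
    rw [LinearMap.mem_ker, hf] at hx
    rw [← map_smul, ← map_sub, hx, map_zero]
  obtain ⟨C, hC, hcompl⟩ := Module.End.isSemisimple_iff.1 hF _ hinv
  rw [Module.End.mem_invtSubmodule] at hC
  have hCF : ∀ x ∈ C, F x ∈ C := fun x hx => hC hx
  have hCf : ∀ x ∈ C, f x ∈ C := fun x hx => by
    rw [hf]
    exact C.sub_mem (hCF _ (hCF _ hx)) (C.smul_mem _ hx)
  have hinj : Function.Injective (f.restrict hCf) := by
    rw [← LinearMap.ker_eq_bot, LinearMap.ker_eq_bot']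
    intro x hx
    have h1 : f (x : V) = 0 := by
      have := congrArg Subtype.val hx
      simpa using this
    have h2 : (x : V) ∈ LinearMap.ker f ⊓ C := ⟨h1, x.2⟩
    rw [hcompl.inf_eq_bot, Submodule.mem_bot] at h2
    exact Subtype.ext h2
  have hsurj : Function.Surjective (f.restrict hCf) := LinearMap.surjective_of_injective hinj
  have hsub : ∀ x, x - (LinearMap.ker f).projection C hcompl x ∈ C := fun x =>
    Submodule.sub_projection_mem hcompl x
  have hmemk : ∀ x, f ((LinearMap.ker f).projection C hcompl x) = 0 := fun x =>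
    LinearMap.mem_ker.1 (Submodule.projection_apply_mem hcompl x)
  have hrange : ∀ y, f y ∈ C := by
    intro y
    have h1 : f y = f (y - (LinearMap.ker f).projection C hcompl y) := by
      rw [map_sub, hmemk, sub_zero]
    rw [h1]
    exact hCf _ (hsub y)
  have hcomm : ∀ g : End K V, (∀ x, g (f x) = f (g x)) → ∀ x,
      (LinearMap.ker f).projection C hcompl (g x) =
        g ((LinearMap.ker f).projection C hcompl x) := by
    intro g hg x
    obtain ⟨c', hc'⟩ := hsurj ⟨_, hsub x⟩
    have h1 : f (c' : V) = x - (LinearMap.ker f).projection C hcompl x := by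
      have := congrArg Subtype.val hc'
      simpa using this
    have h2 : g x = g ((LinearMap.ker f).projection C hcompl x) + f (g c') := by
      rw [← hg, h1, map_sub]
      abel
    have h3 : g ((LinearMap.ker f).projection C hcompl x) ∈ LinearMap.ker f := by
      rw [LinearMap.mem_ker, ← hg, hmemk, map_zero]
    rw [h2, map_add, Submodule.projection_apply_of_mem_left hcompl h3,
      Submodule.projection_apply_of_mem_right hcompl (hrange _), add_zero]
  refine ⟨(LinearMap.ker f).projection C hcompl, ?_, ?_, ?_, ?_⟩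
  · intro x
    have := hmemk x
    rw [hf] at this
    exact sub_eq_zero.1 this
  · intro x hx
    refine Submodule.projection_apply_of_mem_left hcompl ?_
    rw [LinearMap.mem_ker, hf, hx, sub_self]
  · intro x
    refine hcomm (F ∘ₗ F) (fun y => ?_) x
    show F (F (f y)) = f (F (F y))
    rw [hf, hf]
    simp
  · intro x
    refine hcomm π (fun y => ?_) x
    rw [hf, hf, map_sub, hc, map_smul]

theorem exists_tate {K V : Type} [Field K] [CharZero K] [AddCommGroup V] [Module K V] [FiniteDimensional K V]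
    (ω : V →ₗ[K] V →ₗ[K] K) (ε q : K) (hε : ε = 1 ∨ ε = -1) (hq : q ≠ 0)
    (symm : ∀ x y, ω y x = ε * ω x y) (nondeg : ∀ x, (∀ y, ω x y = 0) → x = 0)
    (F : End K V) (mult : ∀ x y, ω (F x) (F y) = q * ω x y) (hF : F.IsSemisimple)
    (π : End K V) (hπ : π * π = π) (hc : π * F ^ 2 = F ^ 2 * π)
    (hd : ∀ u ∈ LinearMap.range π, (∀ y ∈ LinearMap.range π, ω u (F y) = 0) → u = 0)
    (heven : Even (finrank K (LinearMap.range π)))
    (hA : ∀ (W : Submodule K V) (m : ℕ), finrank K W = 2 * m →
      ∃ B : W →ₗ[K] W →ₗ[K] K, (∀ x, B x x = 0) ∧ ∀ x, (∀ y, B x y = 0) → x = 0)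
    (hpar : ∀ (W : Submodule K V) (B : W →ₗ[K] W →ₗ[K] K), (∀ x, B x x = 0) →
      (∀ x, (∀ y, B x y = 0) → x = 0) → Even (finrank K W)) :
    ∃ t : End K V, t * F ^ 2 = F ^ 2 * t ∧ (∀ x, ω x (t x) = 0) ∧
      ∀ u ∈ LinearMap.range π, (∀ y ∈ LinearMap.range π, ω u (t y) = 0) → u = 0 := by
  classical
  have hε0 : ε ≠ 0 := by rcases hε with h | h <;> rw [h] <;> norm_num
  have hεε : ε * ε = 1 := by rcases hε with h | h <;> rw [h] <;> norm_num
  have hq1 : q⁻¹ * q = 1 := inv_mul_cancel₀ hq
  have hF2 : ∀ x, (F ^ 2) x = F (F x) := fun x => by rw [pow_two]; rfl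
  have hc' : ∀ x, π (F (F x)) = F (F (π x)) := fun x => by
    have h := LinearMap.congr_fun hc x
    rw [Module.End.mul_apply, Module.End.mul_apply, hF2, hF2] at h
    exact h
  have hπ' : ∀ x, π (π x) = π x := fun x => LinearMap.congr_fun hπ x
  have hU : ∀ x, x ∈ LinearMap.range π ↔ π x = x := by
    intro x
    constructor
    · rintro ⟨y, rfl⟩
      exact hπ' y
    · intro h
      exact ⟨x, h⟩
  obtain ⟨P, hP1, hP2, hP3, hP4⟩ := p7_proj F hF (ε * q) π hc'
  have hPP : ∀ x, P (P x) = P x := fun x => hP2 _ (hP1 x)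
  let A : V →ₗ[K] V →ₗ[K] K := ω.compl₂ F - (ω.compl₂ F).flip
  have hAd : ∀ x y, A x y = ω x (F y) - ω y (F x) := fun x y => rfl
  have hAalt : ∀ x, A x x = 0 := fun x => by rw [hAd]; ring
  have hAanti : ∀ x y, A x y = - A y x := by
    intro x y
    rw [hAd, hAd]
    ring
  have hAf : ∀ u y, A u y = - (ε * q⁻¹) * ω (F (F u) - (ε * q) • u) (F y) := by
    intro u y
    rw [hAd, map_sub, LinearMap.sub_apply, map_smul, LinearMap.smul_apply, smul_eq_mul,
      mult (F u) y, symm (F u) y]
    linear_combination (ε * ω (F u) y - ε * ε * ω u (F y)) * hq1 - ω u (F y) * hεε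
  have hrad : ∀ r y, P r = r → A r y = 0 := by
    intro r y hr
    have h1 := hP1 r
    rw [hr] at h1
    rw [hAf, h1, sub_self, map_zero, LinearMap.zero_apply, mul_zero]
  have hPU : ∀ y, π y = y → π (P y) = P y := by
    intro y hy
    rw [← hP4, hy]
  have hW : ∀ w, π w = w → P w = 0 → (∀ y, π y = y → P y = 0 → A w y = 0) → w = 0 := by
    intro w hw hw0 h
    have h1 : ∀ y, π y = y → A w y = 0 := by
      intro y hy
      have h2 : A w (P y) = 0 := by
        rw [hAanti, hrad (P y) w (hPP y), neg_zero]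
      have h3 : A w (y - P y) = 0 := by
        apply h
        · rw [map_sub, hy, hPU y hy]
        · rw [map_sub, hPP, sub_self]
      rw [map_sub, h2, sub_zero] at h3
      exact h3
    have h4 : F (F w) - (ε * q) • w = 0 := by
      apply hd
      · rw [hU, map_sub, hc', hw, map_smul, hw]
      · intro y hy
        rw [hU] at hy
        have h5 := h1 y hy
        rw [hAf] at h5
        rcases mul_eq_zero.1 h5 with h6 | h6
        · exact absurd h6 (neg_ne_zero.2 (mul_ne_zero hε0 (inv_ne_zero hq)))
        · exact h6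
    have h7 := hP2 w (sub_eq_zero.1 h4)
    rw [← h7, hw0]
  -- the two parts of `U`
  let R : Submodule K V := LinearMap.range π ⊓ LinearMap.range P
  let W : Submodule K V := LinearMap.range π ⊓ LinearMap.ker P
  have hmR : ∀ x, x ∈ R ↔ π x = x ∧ P x = x := by
    intro x
    show x ∈ LinearMap.range π ⊓ LinearMap.range P ↔ _
    rw [Submodule.mem_inf, hU]
    refine and_congr_right fun _ => ⟨?_, fun h => ⟨x, h⟩⟩
    rintro ⟨y, rfl⟩
    exact hPP y
  have hmW : ∀ x, x ∈ W ↔ π x = x ∧ P x = 0 := by
    intro x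
    show x ∈ LinearMap.range π ⊓ LinearMap.ker P ↔ _
    rw [Submodule.mem_inf, hU, LinearMap.mem_ker]
  have hsup : R ⊔ W = LinearMap.range π := by
    apply le_antisymm
    · exact sup_le inf_le_left inf_le_left
    · intro x hx
      rw [hU] at hx
      rw [Submodule.mem_sup]
      refine ⟨P x, (hmR _).2 ⟨hPU x hx, hPP x⟩, x - P x, (hmW _).2 ⟨?_, ?_⟩, by abel⟩
      · rw [map_sub, hx, hPU x hx]
      · rw [map_sub, hPP, sub_self]
  have hinf : R ⊓ W = ⊥ := by
    rw [eq_bot_iff]
    intro x hx
    rw [Submodule.mem_inf, hmR, hmW] at hx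
    rw [Submodule.mem_bot, ← hx.1.2, hx.2.2]
  have hWeven : Even (finrank K W) := by
    refine hpar W (A.compl₁₂ W.subtype W.subtype) (fun x => hAalt x) (fun x hx => ?_)
    have hxW := (hmW x).1 x.2
    apply Subtype.ext
    refine hW x hxW.1 hxW.2 (fun y hy1 hy2 => ?_)
    exact hx ⟨y, (hmW y).2 ⟨hy1, hy2⟩⟩
  have hReven : Even (finrank K R) := by
    have h1 := Submodule.finrank_sup_add_finrank_inf_eq R W
    rw [hsup, hinf, finrank_bot, add_zero] at h1
    rw [h1, Nat.even_add] at heven
    exact heven.2 hWeven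
  obtain ⟨m, hm⟩ := hReven
  obtain ⟨B', hB'1, hB'2⟩ := hA R m (by rw [hm]; ring)
  have hPπR : ∀ x, P (π x) ∈ R := by
    intro x
    rw [hmR]
    refine ⟨?_, hPP _⟩
    exact hPU (π x) (hπ' x)
  let ρR : V →ₗ[K] R := LinearMap.codRestrict R (P ∘ₗ π) hPπR
  have hρ : ∀ x, ((ρR x : R) : V) = P (π x) := fun x => rfl
  let B : V →ₗ[K] V →ₗ[K] K := A.compl₁₂ π π + B'.compl₁₂ ρR ρR
  have hB : ∀ x y, B x y = A (π x) (π y) + B' (ρR x) (ρR y) := fun x y => rfl
  have nondeg' : ∀ y, (∀ x, ω x y = 0) → y = 0 := by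
    intro y hy
    refine nondeg y (fun x => ?_)
    rw [symm x y, hy, mul_zero]
  have hinj : Function.Injective ω.flip := by
    rw [← LinearMap.ker_eq_bot, LinearMap.ker_eq_bot']
    intro y hy
    exact nondeg' y (fun x => LinearMap.congr_fun hy x)
  let e : V ≃ₗ[K] Dual K V :=
    LinearMap.linearEquivOfInjective ω.flip hinj Subspace.dual_finrank_eq.symm
  have he : ∀ y x, e y x = ω x y := fun y x => rfl
  let t : End K V := e.symm.toLinearMap ∘ₗ B.flip
  have ht : ∀ x y, ω x (t y) = B x y := by
    intro x y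
    rw [← he (t y) x]
    show e (e.symm (B.flip y)) x = B x y
    rw [LinearEquiv.apply_symm_apply]
    rfl
  have hmult2 : ∀ x y, ω (F (F x)) (F (F y)) = q * (q * ω x y) := by
    intro x y
    rw [mult, mult]
  have hFFinj : Function.Injective (F ∘ₗ F) := by
    rw [← LinearMap.ker_eq_bot, LinearMap.ker_eq_bot']
    intro x hx
    refine nondeg x (fun y => ?_)
    have h1 := hmult2 x y
    have h2 : F (F x) = 0 := hx
    rw [h2, map_zero, LinearMap.zero_apply] at h1
    have h3 := (mul_eq_zero.1 h1.symm).resolve_left hq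
    exact (mul_eq_zero.1 h3).resolve_left hq
  have hFFsurj : Function.Surjective (F ∘ₗ F) := LinearMap.surjective_of_injective hFFinj
  have hBinv : ∀ x y, B (F (F x)) (F (F y)) = q * (q * B x y) := by
    intro x y
    have h1 : ∀ z, ρR (F (F z)) = (ε * q) • ρR z := by
      intro z
      apply Subtype.ext
      rw [hρ, Submodule.coe_smul, hρ, hc', hP3, hP1]
    have h2 : A (F (F (π x))) (F (F (π y))) = q * (q * A (π x) (π y)) := by
      rw [hAd, hAd, mult, mult, mult, mult]
      ring
    have h3 : B' ((ε * q) • ρR x) ((ε * q) • ρR y) = (ε * q) * ((ε * q) * B' (ρR x) (ρR y)) := by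
      simp only [map_smul, LinearMap.smul_apply, smul_eq_mul]
    rw [hB, hB, hc', hc', h2, h1, h1, h3]
    linear_combination (q * q * B' (ρR x) (ρR y)) * hεε
  refine ⟨t, ?_, ?_, ?_⟩
  · ext y
    rw [Module.End.mul_apply, Module.End.mul_apply, hF2, hF2, ← sub_eq_zero]
    refine nondeg' _ (fun z => ?_)
    obtain ⟨x, rfl⟩ := hFFsurj z
    show ω (F (F x)) (t (F (F y)) - F (F (t y))) = 0
    rw [map_sub, ht, hBinv, hmult2, ht, sub_self]
  · intro x
    rw [ht, hB, hAalt, hB'1, add_zero]
  · intro u hu h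
    rw [hU] at hu
    have h' : ∀ y, π y = y → A u y + B' (ρR u) (ρR y) = 0 := by
      intro y hy
      have h1 := h y ((hU y).2 hy)
      rw [ht, hB, hu, hy] at h1
      exact h1
    have hPu : P u = u := by
      have h2 : u - P u = 0 := by
        apply hW
        · rw [map_sub, hu, hPU u hu]
        · rw [map_sub, hPP, sub_self]
        · intro y hy hy0
          have h3 := h' y hy
          have h4 : ρR y = 0 := by
            apply Subtype.ext
            rw [hρ, hy, hy0]
            rfl
          rw [h4, map_zero, add_zero] at h3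
          rw [map_sub, LinearMap.sub_apply, h3, hrad (P u) y (hPP u), sub_zero]
      exact (sub_eq_zero.1 h2).symm
    have h5 : ρR u = 0 := by
      refine hB'2 _ (fun r => ?_)
      have hr := (hmR r).1 r.2
      have h6 := h' r hr.1
      rw [hrad u r hPu, zero_add] at h6
      have h7 : ρR (r : V) = r := by
        apply Subtype.ext
        rw [hρ, hr.1, hr.2]
      rw [h7] at h6
      exact h6
    have h8 := congrArg Subtype.val h5
    rw [hρ, hu, hPu] at h8
    exact h8

end Pool.Agent.LibDC76
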