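import Pool.Agent.LibDC76.Defs

/-!
ROW [DC76 P8] (ONLY MATHLIB, MEDIUM).  The determinant form of an orthogonal `M` is multiplied by `± χ^m`, and the
parity of alternating nondegenerate forms.

Plan for `det_sign`.  `U = range π`, `g` commutes with `π`, so `g` maps `U` to `U`; take a basis `b` of `U`; the Gram
matrix `S i j = ω (b i) (b j)` is invertible, with `T` the matrix of `g|U` one has `Tᵀ S T = χ S`, so
`det T ^ 2 = χ ^ (2m)` and `det T = ± χ^m`; and `c (g x) = c (π g x) = c (g π x) = det (g|U) c (π x)`
(the restriction of `c` to `U` is a multiple of `b.det`: `AlternatingMap.eq_smul_basis_det`,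
`AlternatingMap.map_basis_det`-like lemmas, `LinearMap.det`; or `AlternatingMap.compLinearMap` and
`Basis.det_comp`).
Plan for `even_of_alternating`: an invertible alternating matrix of odd size has `det A = det Aᵀ = det (-A) = -det A`.
-/

set_option autoImplicit false

namespace Pool.Agent.LibDC76

open Module

theorem det_sign {K V : Type} [Field K] [CharZero K] [AddCommGroup V] [Module K V] [FiniteDimensional K V]
    (ω : V →ₗ[K] V →ₗ[K] K) (g : End K V) (x : K) (mult : ∀ u v, ω (g u) (g v) = x * ω u v)
    (π : End K V) (hπ : π * π = π) (hc : g * π = π * g) (m : ℕ)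
    (hU : finrank K (LinearMap.range π) = 2 * m)
    (hd : ∀ u ∈ LinearMap.range π, (∀ y ∈ LinearMap.range π, ω u y = 0) → u = 0)
    (c : V [⋀^Fin (2 * m)]→ₗ[K] K) (hcc : ∀ v : Fin (2 * m) → V, c (fun i => π (v i)) = c v) :
    (∀ v, c (fun i => g (v i)) = x ^ m * c v) ∨ (∀ v, c (fun i => g (v i)) = -(x ^ m * c v)) := by
  have hmap : ∀ u ∈ LinearMap.range π, g u ∈ LinearMap.range π := by
    rintro u ⟨w, rfl⟩
    refine ⟨g w, ?_⟩
    have h1 := LinearMap.congr_fun hc w
    simpa [Module.End.mul_apply] using h1.symm
  set U : Submodule K V := LinearMap.range π with hUdef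
  let gU : U →ₗ[K] U := g.restrict hmap
  let B : U →ₗ[K] U →ₗ[K] K := ω.compl₁₂ U.subtype U.subtype
  let b : Basis (Fin (2 * m)) K U := Module.finBasisOfFinrankEq K U hU
  have hB : ∀ u v : U, B (gU u) (gU v) = x * B u v := fun u v => mult u v
  have hdet : LinearMap.det gU ^ 2 = x ^ (2 * m) := by
    have hsep : B.SeparatingLeft := by
      intro u hu
      have h2 := hd u.1 u.2 (fun y hy => hu ⟨y, hy⟩)
      exact Subtype.ext h2
    have hS := (LinearMap.separatingLeft_iff_det_ne_zero b).mp hsep
    have hc2 : B.compl₁₂ gU gU = x • B := by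
      ext u v
      exact hB u v
    have h3 := LinearMap.toMatrix₂_compl₁₂ b b b b B gU gU
    rw [hc2, map_smul] at h3
    have h4 := congrArg Matrix.det h3
    rw [Matrix.det_mul, Matrix.det_mul, Matrix.det_transpose, Matrix.det_smul, Fintype.card_fin,
      LinearMap.det_toMatrix] at h4
    have h5 : (LinearMap.det gU ^ 2 - x ^ (2 * m)) * (LinearMap.toMatrix₂ b b B).det = 0 := by
      linear_combination (-1 : K) * h4
    rcases mul_eq_zero.mp h5 with h6 | h6
    · exact sub_eq_zero.mp h6
    · exact absurd h6 hS
  let cU : U [⋀^Fin (2 * m)]→ₗ[K] K := c.compLinearMap U.subtype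
  let πU : V →ₗ[K] U := LinearMap.codRestrict U π (fun v => ⟨v, rfl⟩)
  have hcU : ∀ v : Fin (2 * m) → V, cU (fun i => πU (v i)) = c v := fun v => hcc v
  have hkey : ∀ v : Fin (2 * m) → V, c (fun i => g (v i)) = LinearMap.det gU * c v := by
    intro v
    have e1 : cU (fun i => πU (g (v i))) = c (fun i => g (v i)) := hcU (fun i => g (v i))
    have e2 : (fun i => πU (g (v i))) = gU ∘ (fun i => πU (v i)) := by
      funext i
      have h1 := LinearMap.congr_fun hc (v i)
      rw [Module.End.mul_apply, Module.End.mul_apply] at h1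
      exact Subtype.ext h1.symm
    have e3 : ∀ w : Fin (2 * m) → U, cU w = cU b * b.det w := by
      intro w
      have h7 := AlternatingMap.eq_smul_basis_det b cU
      have h8 := congrArg (fun F => F w) h7
      simpa using h8
    rw [← e1, e2, e3, Module.Basis.det_comp, ← hcU v, e3 (fun i => πU (v i))]
    ring
  have h9 : (LinearMap.det gU - x ^ m) * (LinearMap.det gU + x ^ m) = 0 := by
    have h10 : x ^ (2 * m) = x ^ m * x ^ m := by rw [two_mul, pow_add]
    linear_combination hdet + h10
  rcases mul_eq_zero.mp h9 with h | h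
  · left
    intro v
    rw [hkey v, sub_eq_zero.mp h]
  · right
    intro v
    rw [hkey v, eq_neg_of_add_eq_zero_left h]
    ring

theorem even_of_alternating {K U : Type} [Field K] [CharZero K] [AddCommGroup U] [Module K U]
    [FiniteDimensional K U] (B : U →ₗ[K] U →ₗ[K] K) (halt : ∀ x, B x x = 0)
    (hnd : ∀ x, (∀ y, B x y = 0) → x = 0) : Even (finrank K U) := by
  by_contra hodd
  rw [Nat.not_even_iff_odd] at hodd
  let b : Basis (Fin (finrank K U)) K U := Module.finBasis K U
  have hsep : B.SeparatingLeft := fun x hx => hnd x hx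
  have hS := (LinearMap.separatingLeft_iff_det_ne_zero b).mp hsep
  have hskew : ∀ x y, B x y = - B y x := by
    intro x y
    have h1 := halt (x + y)
    simp only [map_add, LinearMap.add_apply, halt, zero_add, add_zero] at h1
    exact eq_neg_of_add_eq_zero_right h1
  have hT : (LinearMap.toMatrix₂ b b B).transpose = - LinearMap.toMatrix₂ b b B := by
    ext i j
    rw [Matrix.transpose_apply, Matrix.neg_apply, LinearMap.toMatrix₂_apply,
      LinearMap.toMatrix₂_apply]
    exact hskew _ _
  have h2 := congrArg Matrix.det hT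
  rw [Matrix.det_transpose, Matrix.det_neg, Fintype.card_fin, hodd.neg_one_pow] at h2
  apply hS
  have h3 : (2 : K) * (LinearMap.toMatrix₂ b b B).det = 0 := by linear_combination h2
  rcases mul_eq_zero.mp h3 with h4 | h4
  · exact absurd h4 two_ne_zero
  · exact h4

end Pool.Agent.LibDC76
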