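import Pool.Agent.LibDC76.P1
import Pool.Agent.LibDC76.P2
import Pool.Agent.LibDC76.P5
import Pool.Agent.LibDC76.P6
import Pool.Agent.LibDC76.P7
import Pool.Agent.LibDC76.P8

set_option autoImplicit false

namespace Pool.Agent.LibDC76

open Module

section Linear

variable {K V : Type} [Field K] [CharZero K] [AddCommGroup V] [Module K V] [FiniteDimensional K V]

/-- The alternating form attached to `t` on the range of `π`, as a form on `V`. -/
noncomputable def altForm (ω : V →ₗ[K] V →ₗ[K] K) (π t : End K V) : V →ₗ[K] V →ₗ[K] K :=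
  ω.compl₁₂ π (t * π) - (ω.compl₁₂ π (t * π)).flip

omit [CharZero K] [FiniteDimensional K V] in
theorem altForm_apply (ω : V →ₗ[K] V →ₗ[K] K) (π t : End K V) (x y : V) :
    altForm ω π t x y = ω (π x) (t (π y)) - ω (π y) (t (π x)) := rfl

/-- A top form on the range of `π` is a multiple of the alternating sum of products of the form. -/
theorem top_form (π : End K V) (hπ : π * π = π) (m : ℕ) (hU : finrank K (LinearMap.range π) = 2 * m)
    (A : V →ₗ[K] V →ₗ[K] K) (hA : ∀ x y, A (π x) (π y) = A x y) (halt : ∀ x, A x x = 0)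
    (hnd : ∀ u ∈ LinearMap.range π, (∀ y ∈ LinearMap.range π, A u y = 0) → u = 0)
    (c : V [⋀^Fin m × Fin 2]→ₗ[K] K) (hc : ∀ v : Fin m × Fin 2 → V, c (fun i => π (v i)) = c v) :
    ∃ a : K, c = a • MultilinearMap.alternatization (prodForm A m) := by
  classical
  set U := LinearMap.range π with hUdef
  have hpi : ∀ u ∈ U, π u = u := by
    rintro _ ⟨v, rfl⟩
    exact LinearMap.congr_fun hπ v
  -- the form on `U`
  let AU : U →ₗ[K] U →ₗ[K] K := A.domRestrict₁₂ U U
  obtain ⟨b, hb1, hb0⟩ := exists_symplectic AU (fun x => halt x)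
    (fun x hx => Subtype.ext (hnd x x.2 fun y hy => hx ⟨y, hy⟩)) m hU
  let P : V [⋀^Fin m × Fin 2]→ₗ[K] K := MultilinearMap.alternatization (prodForm A m)
  have hPU : ∀ x : Fin m × Fin 2 → U, P (fun i => (x i : V)) =
      MultilinearMap.alternatization (prodForm AU m) x := by
    intro x
    simp only [P, MultilinearMap.alternatization_apply, MultilinearMap.domDomCongr_apply,
      prodForm_apply]
    rfl
  have hPb : P (fun i => (b i : V)) ≠ 0 := by
    rw [hPU]
    exact alternatization_ne_zero AU (fun x => halt x) m b hb1 hb0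
  -- a basis of `U`
  have hcard : Fintype.card (Fin m × Fin 2) = finrank K U := by
    rw [hU]; simp [mul_comm]
  let e : Basis (Fin m × Fin 2) K U := (finBasisOfFinrankEq K U (n := Fintype.card (Fin m × Fin 2))
    hcard.symm).reindex (Fintype.equivFin _).symm
  let cU : U [⋀^Fin m × Fin 2]→ₗ[K] K := c.compLinearMap U.subtype
  let PU : U [⋀^Fin m × Fin 2]→ₗ[K] K := P.compLinearMap U.subtype
  have h1 : cU = cU e • e.det := AlternatingMap.eq_smul_basis_det e cU
  have h2 : PU = PU e • e.det := AlternatingMap.eq_smul_basis_det e PU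
  have h3 : PU e ≠ 0 := by
    intro h0
    apply hPb
    have : PU b = 0 := by rw [h2, h0]; simp
    simpa [PU] using this
  refine ⟨cU e / PU e, ?_⟩
  ext v
  have hcv : c v = cU (fun i => ⟨π (v i), v i, rfl⟩) := by
    rw [← hc v]; rfl
  have hPv : P v = PU (fun i => ⟨π (v i), v i, rfl⟩) := by
    have : P v = P (fun i => π (v i)) := by
      simp only [P, MultilinearMap.alternatization_apply, MultilinearMap.domDomCongr_apply,
        prodForm_apply]
      simp only [hA]
    rw [this]; rfl
  have hPv' : (MultilinearMap.alternatization (prodForm A m)) v = P v := rfl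
  rw [AlternatingMap.smul_apply, hPv', hcv, hPv, h1, h2]
  simp only [AlternatingMap.smul_apply, smul_eq_mul]
  have : (e.det : U [⋀^Fin m × Fin 2]→ₗ[K] K) e = 1 := Basis.det_self e
  rw [this]
  field_simp

end Linear

section Reduct

variable {K V G S : Type} [Field K] [CharZero K] [TopologicalSpace K] [AddCommGroup V] [Module K V]
    [FiniteDimensional K V] [Group G] [TopologicalSpace G]

/-- CORE: one algebraic correspondence `t` on the reduction with nondegenerate alternating form on `U` makes the
determinant form algebraic. -/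
theorem core (R : Reductions K V G S) (π : End K V) (hπ : π * π = π) (m : ℕ)
    (hm : 0 < m) (hU : finrank K (LinearMap.range π) = 2 * m) (c : V [⋀^Fin (2 * m)]→ₗ[K] K)
    (hc : ∀ v : Fin (2 * m) → V, c (fun i => π (v i)) = c v) (s : S) (hπs : π ∈ R.corr s)
    (t : End K V) (ht : t ∈ R.corr s)
    (hnd : ∀ u ∈ LinearMap.range π,
      (∀ y ∈ LinearMap.range π, R.ω u (t y) = R.ω y (t u)) → u = 0) :
    c.toMultilinearMap ∈ R.alg s (2 * m) := by
  classical
  have hpi : ∀ u ∈ LinearMap.range π, π u = u := by
    rintro _ ⟨v, rfl⟩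
    exact LinearMap.congr_fun hπ v
  have hpp : ∀ v, π (π v) = π v := fun v => LinearMap.congr_fun hπ v
  set A := altForm R.ω π t with hAdef
  let e : Fin m × Fin 2 ≃ Fin (2 * m) := finProdFinEquiv.trans (finCongr (mul_comm m 2))
  let c' : V [⋀^Fin m × Fin 2]→ₗ[K] K := c.domDomCongr e.symm
  obtain ⟨a, ha⟩ := top_form π hπ m hU A
    (by intro x y; simp only [hAdef, altForm_apply, hpp])
    (by intro x; simp only [hAdef, altForm_apply, sub_self])
    (by
      intro u hu h
      refine hnd u hu fun y hy => ?_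
      have := h y hy
      rw [hAdef, altForm_apply, hpi u hu, hpi y hy] at this
      exact sub_eq_zero.1 this) c'
    (by intro v; exact hc fun i => v (e.symm i))
  -- the form `A` is algebraic
  have hB : form2 (R.ω.compl₁₂ π (t * π)) ∈ R.alg s 2 := R.two s π hπs (t * π) (mul_mem ht hπs)
  have hBf : form2 (R.ω.compl₁₂ π (t * π)).flip ∈ R.alg s 2 := by
    have h := R.perm s 2 _ hB (Equiv.swap 0 1)
    have h2 : (form2 (R.ω.compl₁₂ π (t * π))).domDomCongr (Equiv.swap 0 1) =
        form2 (R.ω.compl₁₂ π (t * π)).flip := by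
      ext x
      exact congrArg₂ (fun i j => R.ω (π (x i)) (t (π (x j))))
        (by decide : (Equiv.swap (0 : Fin 2) 1) 0 = 1) (by decide : (Equiv.swap (0 : Fin 2) 1) 1 = 0)
    rwa [h2] at h
  have hA2 : form2 A ∈ R.alg s 2 := by
    have h := sub_mem hB hBf
    have h2 : form2 (R.ω.compl₁₂ π (t * π)) - form2 (R.ω.compl₁₂ π (t * π)).flip = form2 A := by
      ext x
      rfl
    rwa [h2] at h
  -- reindex
  have h1 : c.toMultilinearMap = (c'.toMultilinearMap).domDomCongr e := by
    ext x
    simp only [MultilinearMap.domDomCongr_apply]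
    change c x = c (fun i => x (e (e.symm i)))
    congr 1
    funext i
    rw [Equiv.apply_symm_apply]
  rw [h1, ha]
  have h2 : ((a • MultilinearMap.alternatization (prodForm A m) :
      V [⋀^Fin m × Fin 2]→ₗ[K] K).toMultilinearMap).domDomCongr e =
      a • ∑ σ : Equiv.Perm (Fin m × Fin 2), (Equiv.Perm.sign σ : ℤ) •
        (prodForm A m).domDomCongr (σ.trans e) := by
    ext x
    simp only [MultilinearMap.domDomCongr_apply, smul_apply, sum_apply]
    change a • (MultilinearMap.alternatization (prodForm A m)) (fun i => x (e i)) = _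
    rw [MultilinearMap.alternatization_apply]
    rfl
  rw [h2]
  refine Submodule.smul_mem _ _ (Submodule.sum_mem _ fun σ _ => ?_)
  have h3 := prodForm_mem (R.alg s) (R.mul s) (R.perm s) A hA2 m hm (2 * m) (σ.trans e)
  exact (R.alg s (2 * m)).toAddSubgroup.zsmul_mem h3 _

end Reduct

end Pool.Agent.LibDC76
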