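import Pool.Agent.LibDC76.Defs

/-!
ROW [DC76 P1] (ONLY MATHLIB, MEDIUM).  Symplectic basis.

Plan: strong induction on `m` (generalise `U`).  `m = 0`: `finrank = 0`, `U` is trivial.
Step: pick `u ≠ 0` (finrank > 0), by nondegeneracy `v` with `B u v ≠ 0`, rescale `v` so that `B u v = 1`.
`W := {w | B u w = 0 ∧ B v w = 0}` (submodule, `LinearMap.ker` of the map `U → K × K`, which is onto), so
`finrank W = 2 m - 2` (rank-nullity), the restriction of `B` to `W` (`B.domRestrict₁₂ W W`) is alternating and
nondegenerate (any `x` is `a u + b v + w`).  Take the vectors of `W` from the induction hypothesis, and `u, v`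
for the new index (`Fin.cons` on the first component).
-/

set_option autoImplicit false

namespace Pool.Agent.LibDC76

open Module

theorem exists_symplectic {K U : Type} [Field K] [AddCommGroup U] [Module K U] (B : U →ₗ[K] U →ₗ[K] K)
    (halt : ∀ x, B x x = 0) (hnd : ∀ x, (∀ y, B x y = 0) → x = 0) (m : ℕ) (hm : finrank K U = 2 * m)
    [FiniteDimensional K U] :
    ∃ b : Fin m × Fin 2 → U, (∀ i, B (b (i, 0)) (b (i, 1)) = 1) ∧
      ∀ p q : Fin m × Fin 2, p.1 ≠ q.1 → B (b p) (b q) = 0 := by
  induction m generalizing U with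
  | zero => exact ⟨fun _ => 0, fun i => i.elim0, fun p => p.1.elim0⟩
  | succ m ih =>
    have hskew : ∀ x y, B y x = -B x y := by
      intro x y
      have h := halt (x + y)
      simp only [map_add, LinearMap.add_apply, halt, zero_add, add_zero] at h
      linear_combination h
    have hpos : 0 < finrank K U := by omega
    obtain ⟨u, hu⟩ : ∃ u : U, u ≠ 0 := by
      have : Nontrivial U := Module.nontrivial_of_finrank_pos hpos
      exact exists_ne 0
    obtain ⟨v₀, hv₀⟩ : ∃ v, B u v ≠ 0 := by
      by_contra hno
      push Not at hno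
      exact hu (hnd u hno)
    obtain ⟨v, huv⟩ : ∃ v, B u v = 1 :=
      ⟨(B u v₀)⁻¹ • v₀, by rw [map_smul, smul_eq_mul, inv_mul_cancel₀ hv₀]⟩
    have hvu : B v u = -1 := by rw [hskew u v, huv]
    let L : U →ₗ[K] K × K := (B u).prod (B v)
    have hLsurj : LinearMap.range L = ⊤ := by
      rw [LinearMap.range_eq_top]
      rintro ⟨a, b⟩
      refine ⟨a • v - b • u, ?_⟩
      change (B u (a • v - b • u), B v (a • v - b • u)) = (a, b)
      simp [huv, hvu, halt]
    have hrank := LinearMap.finrank_range_add_finrank_ker L
    rw [hLsurj, finrank_top, Module.finrank_prod, Module.finrank_self, hm] at hrank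
    let W : Submodule K U := LinearMap.ker L
    have hWmem : ∀ w : U, w ∈ W ↔ B u w = 0 ∧ B v w = 0 := by
      intro w
      change L w = 0 ↔ _
      change ((B u w, B v w) : K × K) = 0 ↔ _
      rw [Prod.mk_eq_zero]
    have hW : finrank K W = 2 * m := by
      change finrank K (LinearMap.ker L) = 2 * m
      omega
    obtain ⟨b, hb1, hb2⟩ := ih (U := W) (B.domRestrict₁₂ W W) (fun x => halt x) (by
      intro x hx
      have hx' : (x : U) = 0 := by
        apply hnd
        intro y
        have hw : y - (-(B v y)) • u - (B u y) • v ∈ W := by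
          rw [hWmem]
          constructor
          · simp [huv, halt]
          · simp [hvu, halt]
        have h1 : B (x : U) (y - (-(B v y)) • u - (B u y) • v) = 0 := hx ⟨_, hw⟩
        have h2 : B (x : U) u = 0 := by rw [hskew u x, ((hWmem x).mp x.2).1, neg_zero]
        have h3 : B (x : U) v = 0 := by rw [hskew v x, ((hWmem x).mp x.2).2, neg_zero]
        rw [map_sub, map_sub, map_smul, map_smul, h2, h3, smul_zero, smul_zero, sub_zero,
          sub_zero] at h1
        exact h1
      exact Subtype.ext hx') hW
    have hb1' : ∀ i, B (b (i, 0) : U) (b (i, 1) : U) = 1 := hb1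
    have hb2' : ∀ p q : Fin m × Fin 2, p.1 ≠ q.1 → B (b p : U) (b q : U) = 0 := hb2
    let c : Fin (m + 1) → Fin 2 → U := fun i j =>
      Fin.cases (motive := fun _ => U) ((![u, v] : Fin 2 → U) j) (fun k => (b (k, j) : U)) i
    have hc0 : ∀ j, c 0 j = (![u, v] : Fin 2 → U) j := fun j => rfl
    have hcs : ∀ k j, c (Fin.succ k) j = (b (k, j) : U) := fun k j => rfl
    have h0s : ∀ j k j', B (c 0 j) (c (Fin.succ k) j') = 0 := by
      intro j k j'
      rw [hc0, hcs]
      have := (hWmem _).mp (b (k, j')).2
      fin_cases j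
      · exact this.1
      · exact this.2
    refine ⟨fun p => c p.1 p.2, ?_, ?_⟩
    · intro i
      refine Fin.cases ?_ (fun k => ?_) i
      · exact huv
      · exact hb1' k
    · rintro ⟨i, j⟩ ⟨i', j'⟩ hne
      change i ≠ i' at hne
      change B (c i j) (c i' j') = 0
      revert hne
      refine Fin.cases ?_ (fun k => ?_) i <;> refine Fin.cases ?_ (fun k' => ?_) i'
      · intro h; exact absurd rfl h
      · intro _; exact h0s j k' j'
      · intro _; rw [hskew (c 0 j'), h0s, neg_zero]
      · intro h
        rw [hcs, hcs]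
        exact hb2' (k, j) (k', j') (fun h' => h (congrArg Fin.succ h'))

/-- the converse construction: a space of even dimension carries a nondegenerate alternating form -/
theorem exists_alternating {K U : Type} [Field K] [AddCommGroup U] [Module K U] (m : ℕ)
    (hm : finrank K U = 2 * m) [FiniteDimensional K U] :
    ∃ B : U →ₗ[K] U →ₗ[K] K, (∀ x, B x x = 0) ∧ ∀ x, (∀ y, B x y = 0) → x = 0 := by
  have hfr : finrank K U = finrank K (Fin m × Fin 2 → K) := by
    rw [hm, Module.finrank_fintype_fun_eq_card, Fintype.card_prod, Fintype.card_fin,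
      Fintype.card_fin, mul_comm]
  let e : U ≃ₗ[K] (Fin m × Fin 2 → K) := LinearEquiv.ofFinrankEq _ _ hfr
  refine ⟨LinearMap.mk₂ K (fun x y => ∑ i : Fin m, (e x (i, 0) * e y (i, 1) - e x (i, 1) * e y (i, 0)))
    ?_ ?_ ?_ ?_, ?_, ?_⟩
  · intro x x' y
    rw [← Finset.sum_add_distrib]
    refine Finset.sum_congr rfl (fun i _ => ?_)
    simp only [map_add, Pi.add_apply]
    ring
  · intro c x y
    rw [Finset.smul_sum]
    refine Finset.sum_congr rfl (fun i _ => ?_)
    simp only [map_smul, Pi.smul_apply, smul_eq_mul]
    ring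
  · intro x y y'
    rw [← Finset.sum_add_distrib]
    refine Finset.sum_congr rfl (fun i _ => ?_)
    simp only [map_add, Pi.add_apply]
    ring
  · intro c x y
    rw [Finset.smul_sum]
    refine Finset.sum_congr rfl (fun i _ => ?_)
    simp only [map_smul, Pi.smul_apply, smul_eq_mul]
    ring
  · intro x
    rw [LinearMap.mk₂_apply]
    exact Finset.sum_eq_zero (fun i _ => by ring)
  · intro x hx
    have key : ∀ i j, e x (i, j) = 0 := by
      intro i j
      fin_cases j
      · have h := hx (e.symm (Pi.single (i, 1) 1))
        rw [LinearMap.mk₂_apply, Finset.sum_eq_single i] at h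
        · simpa using h
        · intro k _ hk
          simp [hk]
        · intro h'; exact absurd (Finset.mem_univ i) h'
      · have h := hx (e.symm (Pi.single (i, 0) 1))
        rw [LinearMap.mk₂_apply, Finset.sum_eq_single i] at h
        · simpa using h
        · intro k _ hk
          simp [hk]
        · intro h'; exact absurd (Finset.mem_univ i) h'
    have : e x = 0 := funext (fun p => key p.1 p.2)
    exact (LinearEquiv.map_eq_zero_iff e).mp this

end Pool.Agent.LibDC76
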